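import Mathlib

namespace Pool.Agent.Results.MP_43e0cc_an.Jordan

open scoped ENNReal

/-- `ℓ_p(ℤ, X)`. -/
abbrev L (X : Type) [NormedAddCommGroup X] (p : ℝ≥0∞) : Type := lp (fun _ : ℤ => X) p

variable (K : Type) [RCLike K] (p : ℝ≥0∞) [Fact (1 ≤ p)]

/-- `K^d` with the Euclidean norm. -/
abbrev E (d : ℕ) : Type := EuclideanSpace K (Fin d)

/-- The maps `S n` and `(S n)⁻¹` are uniformly bounded. -/
def UBdd {X : Type} [NormedAddCommGroup X] [NormedSpace K X] (S : ℤ → (X ≃L[K] X)) : Prop :=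
  ∃ M : ℝ, ∀ n, ‖(S n : X →L[K] X)‖ ≤ M ∧ ‖((S n).symm : X →L[K] X)‖ ≤ M

/-- `σ` is the shift operator generated by `S`. -/
def Gen {X : Type} [NormedAddCommGroup X] (S : ℤ → X → X) (σ : L X p → L X p) : Prop :=
  ∀ x n, σ x n = S (n + 1) (x (n + 1))

/-- `B` is a product of `k` weighted backward shifts on `ℓ_p(K)^k`, the weights being bounded and
bounded away from zero. -/
def IsProd {k : ℕ} (B : (Fin k → L K p) → (Fin k → L K p)) : Prop :=
  ∃ ω : Fin k → ℤ → K, (∃ c M : ℝ, 0 < c ∧ ∀ j n, c ≤ ‖ω j n‖ ∧ ‖ω j n‖ ≤ M) ∧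
    ∀ y j n, B y j n = ω j (n + 1) * y j (n + 1)

/-- Linear conjugacy. -/
def Conj {X Y : Type} [NormedAddCommGroup X] [NormedSpace K X] [NormedAddCommGroup Y]
    [NormedSpace K Y] (σ : X → X) (B : Y → Y) : Prop :=
  ∃ H : X ≃L[K] Y, ∀ x, H (σ x) = B (H x)

/-- The shift generated by `S` exists on `ℓ_p(X)` and is conjugate to no finite product of
weighted backward shifts. -/
def Bad {X : Type} [NormedAddCommGroup X] [NormedSpace K X] (S : ℤ → (X ≃L[K] X)) : Prop :=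
  ∃ σ : L X p → L X p, Gen p (fun n => S n) σ ∧
    ∀ (k : ℕ) (B : (Fin k → L K p) → (Fin k → L K p)), IsProd K p B → ¬ Conj K σ B

variable {K p}

lemma aux (hp : p ≠ ⊤) (A : E K 2 →L[K] E K 2) (x : L (E K 2) p) :
    HasSum (fun n : ℤ => (‖A‖ * ‖x (n + 1)‖) ^ p.toReal) ((‖A‖ * ‖x‖) ^ p.toReal) := by
  have hp0 : 0 < p.toReal := ENNReal.toReal_pos (zero_lt_one.trans_le Fact.out).ne' hp
  have h := ((Equiv.addRight (1 : ℤ)).hasSum_iff.2 (lp.hasSum_norm hp0 x)).mul_left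
    (‖A‖ ^ p.toReal)
  simp only [Real.mul_rpow (norm_nonneg _) (norm_nonneg _)]
  exact h

omit [Fact (1 ≤ p)] in
lemma aux2 (A : E K 2 →L[K] E K 2) (x : L (E K 2) p) (n : ℤ) :
    ‖A (x (n + 1))‖ ^ p.toReal ≤ (‖A‖ * ‖x (n + 1)‖) ^ p.toReal :=
  Real.rpow_le_rpow (norm_nonneg _) (A.le_opNorm _) ENNReal.toReal_nonneg

noncomputable def op0 (hp : p ≠ ⊤) (A : E K 2 →L[K] E K 2) : L (E K 2) p →ₗ[K] L (E K 2) p where
  toFun x := ⟨fun n => A (x (n + 1)), memℓp_gen
    ((aux hp A x).summable.of_nonneg_of_le (fun _ => by positivity) (aux2 A x))⟩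
  map_add' x y := by ext1; funext n; simp
  map_smul' c x := by ext1; funext n; simp

lemma op0_le (hp : p ≠ ⊤) (A : E K 2 →L[K] E K 2) (x : L (E K 2) p) :
    ‖op0 hp A x‖ ≤ ‖A‖ * ‖x‖ := by
  have hp0 : 0 < p.toReal := ENNReal.toReal_pos (zero_lt_one.trans_le Fact.out).ne' hp
  apply lp.norm_le_of_tsum_le hp0 (by positivity)
  rw [← (aux hp A x).tsum_eq]
  exact ((lp.memℓp (op0 hp A x)).summable hp0).tsum_le_tsum (aux2 A x) (aux hp A x).summable

noncomputable def op (hp : p ≠ ⊤) (A : E K 2 →L[K] E K 2) : L (E K 2) p →L[K] L (E K 2) p :=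
  (op0 hp A).mkContinuous ‖A‖ (op0_le hp A)

lemma op_apply (hp : p ≠ ⊤) (A : E K 2 →L[K] E K 2) (x : L (E K 2) p) (n : ℤ) :
    op hp A x n = A (x (n + 1)) := rfl

noncomputable def N : E K 2 →L[K] E K 2 :=
  (EuclideanSpace.proj (1 : Fin 2)).smulRight (EuclideanSpace.single 0 1)

lemma NN (v : E K 2) : N (N v) = 0 := by simp [N]

noncomputable def Jo : E K 2 ≃L[K] E K 2 :=
  ContinuousLinearEquiv.equivOfInverse (1 + N) (1 - N)
    (fun v => by simp [NN]) (fun v => by simp [NN])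

lemma pow_s (hp : p ≠ ⊤) (x : L (E K 2) p) (m : ℕ) (n : ℤ) :
    (op hp (1 + N) ^ m) x n = x (n + m) + (m : K) • N (x (n + m)) := by
  induction m generalizing n with
  | zero => simp
  | succ m ih =>
    rw [pow_succ', mul_apply_eq_comp, op_apply, ih]
    simp [NN, add_assoc, add_comm (1 : ℤ), add_smul, add_comm (N (x (n + (m + 1))))]

lemma pow_u (hp : p ≠ ⊤) (x : L (E K 2) p) (m : ℕ) :
    ‖(op hp 1 ^ m) x‖ ≤ ‖x‖ ∧ ∀ n, (op hp 1 ^ m) x n = x (n + m) := by
  induction m with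
  | zero => simp
  | succ m ih =>
    rw [pow_succ', mul_apply_eq_comp]
    refine ⟨(op0_le hp 1 _).trans ?_, fun n => ?_⟩
    · rw [norm_one, one_mul]; exact ih.1
    · rw [op_apply, ih.2]; simp [add_assoc, add_comm (1 : ℤ)]

def Bd {X : Type} [NormedAddCommGroup X] [NormedSpace K X] (T : X →L[K] X) (v : X) : Prop :=
  ∃ C : ℝ, ∀ m : ℕ, ‖(T ^ m) v‖ ≤ C

lemma bd_iff (hp : p ≠ ⊤) (x : L (E K 2) p) : Bd (op hp (1 + N)) x ↔ ∀ n, N (x n) = 0 := by
  have hp0 : p ≠ 0 := (zero_lt_one.trans_le Fact.out).ne'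
  constructor
  · rintro ⟨C, hC⟩ n
    by_contra hne
    have hpos := norm_pos_iff.2 hne
    obtain ⟨m, hm⟩ := exists_nat_gt ((C + ‖x n‖) / ‖N (x n)‖)
    rw [div_lt_iff₀ hpos] at hm
    have h1 := (lp.norm_apply_le_norm hp0 _ (n - m)).trans (hC m)
    rw [pow_s, sub_add_cancel] at h1
    have h2 := norm_sub_le (x n + (m : K) • N (x n)) (x n)
    rw [add_sub_cancel_left, norm_smul, RCLike.norm_natCast] at h2
    linarith
  · intro h
    refine ⟨‖x‖, fun m => le_of_eq_of_le ?_ (pow_u hp x m).1⟩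
    congr 1
    ext1; funext n
    rw [pow_s, (pow_u hp x m).2, h, smul_zero, add_zero]

theorem result (K : Type) [RCLike K] (p : ℝ≥0∞) [Fact (1 ≤ p)] (hp : p ≠ ⊤) :
    ∃ S : ℤ → (E K 2 ≃L[K] E K 2), UBdd K S ∧ Bad K p S := by
  refine ⟨fun _ => Jo, ⟨max _ _, fun _ => ⟨le_max_left _ _, le_max_right _ _⟩⟩, op hp (1 + N),
    fun _ _ => rfl, ?_⟩
  rintro k B0 ⟨ω, -, hB0⟩ ⟨H, hH0⟩
  obtain ⟨B, rfl⟩ : ∃ B : (Fin k → L K p) →L[K] (Fin k → L K p), B0 = B := by
    refine ⟨(H : L (E K 2) p →L[K] (Fin k → L K p)) ∘L op hp (1 + N) ∘L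
      (H.symm : (Fin k → L K p) →L[K] L (E K 2) p), funext fun y => ?_⟩
    have := hH0 (H.symm y)
    rw [H.apply_symm_apply] at this
    exact this.symm
  have hB : ∀ y j n, B y j n = ω j (n + 1) * y j (n + 1) := hB0
  have hH : ∀ x, H (op hp (1 + N) x) = B (H x) := hH0
  have hp0 : 0 < p := zero_lt_one.trans_le Fact.out
  have hpow : ∀ (m : ℕ) x, H ((op hp (1 + N) ^ m) x) = (B ^ m) (H x) := by
    intro m x
    induction m with
    | zero => simp
    | succ m ih => rw [pow_succ', pow_succ', mul_apply_eq_comp, hH, ih]; rfl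
  have hbd : ∀ x, Bd B (H x) ↔ ∀ n, N (x n) = 0 := by
    intro x
    rw [← bd_iff hp]
    constructor
    · rintro ⟨C, hC⟩
      refine ⟨‖(H.symm : (Fin k → L K p) →L[K] L (E K 2) p)‖ * C, fun m => ?_⟩
      rw [← H.symm_apply_apply ((op hp (1 + N) ^ m) x), hpow]
      exact ((H.symm : (Fin k → L K p) →L[K] L (E K 2) p).le_opNorm _).trans
        (mul_le_mul_of_nonneg_left (hC m) (norm_nonneg _))
    · rintro ⟨C, hC⟩
      refine ⟨‖(H : L (E K 2) p →L[K] (Fin k → L K p))‖ * C, fun m => ?_⟩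
      rw [← hpow]
      exact ((H : L (E K 2) p →L[K] (Fin k → L K p)).le_opNorm _).trans
        (mul_le_mul_of_nonneg_left (hC m) (norm_nonneg _))
  obtain ⟨W, hW⟩ : ∃ W : Fin k → ℤ → ℕ → K, ∀ (m : ℕ) y j n,
      (B ^ m) y j n = W j n m * y j (n + m) := by
    refine ⟨fun j n m => ∏ i ∈ Finset.range m, ω j (n + i + 1), fun m y j => ?_⟩
    induction m with
    | zero => simp
    | succ m ih =>
      intro n
      rw [pow_succ', mul_apply_eq_comp, hB, ih]
      beta_reduce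
      rw [Finset.prod_range_succ']
      simp [add_assoc, add_comm (1 : ℤ), mul_comm, mul_left_comm]
  set e : Fin k → ℤ → (Fin k → L K p) := fun j n => Pi.single j (lp.single p n 1) with he
  have hBe : ∀ (m : ℕ) j n, (B ^ m) (e j n) = W j (n - m) m • e j (n - m) := by
    intro m j n
    funext j'
    ext1; funext n'
    rw [hW]
    by_cases h1 : j' = j
    · subst h1
      by_cases h2 : n' = n - m
      · subst h2; simp [he]
      · have : n' + m ≠ n := fun h => h2 (by omega)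
        simp [he, h2, this]
    · simp [he, h1]
  have hne : ∀ j n, ‖e j n‖ = 1 := fun j n => by
    simp [he, Pi.norm_single, lp.norm_single hp0]
  have coord : ∀ (y : Fin k → L K p) j n, ‖y j n‖ ≤ ‖y‖ := fun y j n =>
    (lp.norm_apply_le_norm hp0.ne' _ _).trans (norm_le_pi_norm y j)
  have P1 : ∀ y j n, Bd B y → y j n ≠ 0 → Bd B (e j n) := by
    rintro y j n ⟨C, hC⟩ hy
    refine ⟨C / ‖y j n‖, fun m => ?_⟩
    rw [hBe, norm_smul, hne, mul_one, le_div_iff₀ (norm_pos_iff.2 hy), ← norm_mul]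
    have := (coord _ j (n - m)).trans (hC m)
    rwa [hW, sub_add_cancel] at this
  have P2 : ∀ j n, Bd B (e j n) := by
    intro j n
    by_contra hcon
    apply hcon
    obtain ⟨x, hx⟩ := H.surjective (e j n)
    refine ⟨‖(H : L (E K 2) p →L[K] (Fin k → L K p))‖ * ‖x‖, fun m => ?_⟩
    have z1 : Bd B (H ((op hp (1 + N) ^ m) x - (op hp 1 ^ m) x)) := by
      rw [hbd]
      intro n
      rw [lp.coeFn_sub, Pi.sub_apply, pow_s, (pow_u hp x m).2]
      simp [NN]
    have z2 : H ((op hp (1 + N) ^ m) x - (op hp 1 ^ m) x) j (n - m) = 0 := by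
      by_contra h
      obtain ⟨C, hC⟩ := P1 _ _ _ z1 h
      have z3 : Bd B (H ((op hp (1 + N) ^ m) x)) := by
        refine ⟨‖W j (n - m) m‖ * C, fun r => ?_⟩
        rw [hpow, hx, hBe, map_smul, norm_smul]
        exact mul_le_mul_of_nonneg_left (hC r) (norm_nonneg _)
      rw [hbd] at z3
      apply hcon
      rw [← hx, hbd]
      intro n'
      have := z3 (n' - m)
      rw [pow_s] at this
      simpa [NN] using this
    rw [map_sub, hpow, hx, hBe, Pi.sub_apply, lp.coeFn_sub, Pi.sub_apply, sub_eq_zero] at z2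
    have z4 : W j (n - m) m = H ((op hp 1 ^ m) x) j (n - m) := by simpa [he] using z2
    rw [hBe, norm_smul, hne, mul_one, z4]
    exact (coord _ _ _).trans (((H : L (E K 2) p →L[K] (Fin k → L K p)).le_opNorm _).trans
      (mul_le_mul_of_nonneg_left (pow_u hp x m).1 (norm_nonneg _)))
  set Φ : (Fin k → L K p) →L[K] E K 2 :=
    N ∘L (lp.evalCLM K (fun _ : ℤ => E K 2) p 0) ∘L (H.symm : (Fin k → L K p) →L[K] L (E K 2) p)
    with hΦ
  have hΦ0 : ∀ j, Φ ∘L (ContinuousLinearMap.single K (fun _ => L K p) j) = 0 := by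
    intro j
    apply lp.ext_continuousLinearMap hp
    intro n
    ext1
    have := P2 j n
    rw [← H.apply_symm_apply (e j n), hbd] at this
    exact this 0
  have hz : Φ (H (lp.single p 0 (EuclideanSpace.single 1 1))) = 0 := by
    rw [← Finset.univ_sum_single (H _), map_sum]
    exact Finset.sum_eq_zero fun j _ => DFunLike.congr_fun (hΦ0 j) _
  have : N (H.symm (H (lp.single p 0 (EuclideanSpace.single 1 1))) 0) = 0 := hz
  simp [N] at this

end Pool.Agent.Results.MP_43e0cc_an.Jordan
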